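import Mathlib
import Pool.Agent.Helper93.ML.Window

/-! # Module M5_Junction of `MP_021201_al` -/

namespace Pool.Agent.Helper41.ML

open Pool.Agent.Helper93.ML

theorem infix_split {y A R : List Ltr} {x : Ltr} (h : y <:+: A ++ x :: R) (hx : x ∉ y) :
    y <:+: A ∨ y <:+: R := by
  obtain ⟨s, t, h⟩ := h
  rw [List.append_assoc, List.append_eq_append_iff] at h
  rcases h with ⟨a, rfl, h⟩ | ⟨c, rfl, h⟩
  · rw [List.append_eq_append_iff] at h
    rcases h with ⟨a', rfl, h⟩ | ⟨c', rfl, h⟩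
    · exact Or.inl ⟨s, a', by simp⟩
    · cases c' with
      | nil => exact Or.inl ⟨s, [], by simp⟩
      | cons z c' =>
        exfalso
        have : x = z := by simpa using (List.cons_eq_cons.1 h).1
        exact hx (by simp [this])
  · cases c with
    | nil =>
      cases y with
      | nil => exact Or.inl List.nil_infix
      | cons z y =>
        exfalso
        have : x = z := by simpa using (List.cons_eq_cons.1 h).1
        exact hx (by simp [this])
    | cons z c =>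
      have h2 := (List.cons_eq_cons.1 h).2
      exact Or.inr ⟨c, t, by rw [h2]; simp⟩

theorem sep_mid {cons : List (ℕ × ℕ)} {A B : List Ltr} (hA : Sep cons A) (hB : Sep cons B)
    {x : Ltr} (hx : x.1 = 3) : Sep cons (A ++ x :: x :: B) := by
  intro c hc y hy hp hl
  have h1 : x ∉ y := fun h => (hp x h).1 hx
  rcases infix_split hy h1 with h | h
  · exact hA c hc y h hp hl
  · have h2 : y <:+: [] ++ x :: B := by simpa using h
    rcases infix_split h2 h1 with h3 | h3
    · have h4 : y = [] := List.infix_nil.1 h3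
      subst h4
      exact hA c hc [] List.nil_infix hp hl
    · exact hB c hc y h3 hp hl

theorem red_mid {A B : List Ltr} (hA : Red A) (hB : Red B) (hA3 : ∀ a ∈ A, a.1 ≠ 3)
    (hB3 : ∀ a ∈ B, a.1 ≠ 3) {x : Ltr} (hx : x.1 = 3) : Red (A ++ x :: x :: B) := by
  unfold Red at *
  rw [List.isChain_append]
  refine ⟨hA, ?_, ?_⟩
  · rw [List.isChain_cons_cons]
    refine ⟨?_, ?_⟩
    · intro h
      have := congrArg Prod.snd h
      simp [inv1] at this
    · cases B with
      | nil => exact .singleton _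
      | cons b B =>
        rw [List.isChain_cons_cons]
        refine ⟨?_, hB⟩
        intro h
        have h1 := congrArg Prod.fst h
        simp only [inv1] at h1
        exact hB3 b (by simp) (h1.trans hx)
  · intro a ha b hb h
    have ha' : a ∈ A := List.mem_of_mem_getLast? ha
    simp only [List.head?_cons, Option.mem_def, Option.some.injEq] at hb
    subst hb
    have h1 := congrArg Prod.fst h
    simp only [inv1] at h1
    exact hA3 a ha' (h1.symm.trans hx)

theorem clean_mid {cons : List (ℕ × ℕ)} {A B : List Ltr} (hA : Clean cons A) (hB : Clean cons B)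
    (hA3 : ∀ a ∈ A, a.1 ≠ 3) (hB3 : ∀ a ∈ B, a.1 ≠ 3) {x : Ltr} (hx : x.1 = 3) :
    Clean cons (A ++ x :: x :: B) := by
  refine ⟨red_mid hA.1 hB.1 hA3 hB3 hx, sep_mid hA.2.1 hB.2.1 hx, ?_⟩
  have h1 : invw (A ++ x :: x :: B) = invw B ++ inv1 x :: inv1 x :: invw A := by
    rw [invw_append, invw_cons, invw_cons]; simp
  rw [h1]
  exact sep_mid hB.2.2 hA.2.2 (x := inv1 x) hx

theorem invw_ne3 {c : List Ltr} (h : ∀ a ∈ c, a.1 ≠ 3) : ∀ a ∈ invw c, a.1 ≠ 3 := by
  intro a ha
  unfold invw at ha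
  rw [List.mem_reverse, List.mem_map] at ha
  obtain ⟨b, hb, rfl⟩ := ha
  exact h b hb

theorem m5_junction : StmtM5Junction := by
  intro G _ M cons δ hI w c hw hp hs
  have hc3 : ∀ a ∈ c, a.1 ≠ 3 := fun a ha => (hp a ha).1
  have hic3 := invw_ne3 hc3
  have hcc : Clean cons c := clean_of_pos hp hs hI.cons_ok
  have hci : Clean cons (invw c) := clean_invw hcc
  have hlt : (lt : Ltr).1 = 3 := rfl
  have hlt' : (inv1 lt : Ltr).1 = 3 := rfl
  constructor
  · -- points `1, t c, w⁻¹, t⁻¹ c`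
    have h4 := hI.hyp 1 (M.ev (lt :: c)) (M.ev w)⁻¹ (M.ev (inv1 lt :: c))
    have e1 : M.d 1 (M.ev w)⁻¹ = w.length := by rw [M.d_one_left, M.len_inv, hw]
    have e2 : M.d (M.ev (lt :: c)) (M.ev (inv1 lt :: c)) = 2 * (c.length + 1) := by
      have h1 : (M.ev (lt :: c))⁻¹ * M.ev (inv1 lt :: c) =
          M.ev (invw c ++ inv1 lt :: inv1 lt :: c) := by
        simp only [M.ev_append, M.ev_cons, M.ev_nil, M.ev_invw, M.s_inv]
        group
      rw [Mark.d, h1, hI.geod _ (clean_mid hci hcc hic3 hc3 hlt')]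
      simp [invw_length]; ring
    have e3 : ∀ x : Ltr, M.d 1 (M.ev (x :: c)) ≤ c.length + 1 := by
      intro x
      rw [M.d_one_left]
      refine (M.len_le _).trans (by simp)
    have e4 : ∀ x : Ltr, M.d (M.ev w)⁻¹ (M.ev (x :: c)) = M.len (M.ev (w ++ x :: c)) := by
      intro x
      rw [Mark.d, inv_inv, M.ev_append]
    have e5 : M.d (M.ev (lt :: c)) (M.ev w)⁻¹ = M.len (M.ev (w ++ lt :: c)) := by
      rw [M.isGeo.symm, e4]
    rw [e1, e2, e4, e5] at h4
    have h5 := e3 lt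
    have h6 := e3 (inv1 lt)
    rcases le_total (M.d 1 (M.ev (lt :: c)) + M.len (M.ev (w ++ inv1 lt :: c)))
      (M.d 1 (M.ev (inv1 lt :: c)) + M.len (M.ev (w ++ lt :: c))) with h | h
    · rw [max_eq_right h] at h4
      exact ⟨lt, Or.inl rfl, by omega⟩
    · rw [max_eq_left h] at h4
      exact ⟨inv1 lt, Or.inr rfl, by omega⟩
  · -- points `1, (c t)⁻¹, w, (c t⁻¹)⁻¹`
    have h4 := hI.hyp 1 (M.ev (c ++ [lt]))⁻¹ (M.ev w) (M.ev (c ++ [inv1 lt]))⁻¹
    have e1 : M.d 1 (M.ev w) = w.length := by rw [M.d_one_left, hw]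
    have e2 : M.d (M.ev (c ++ [lt]))⁻¹ (M.ev (c ++ [inv1 lt]))⁻¹ = 2 * (c.length + 1) := by
      have h1 : ((M.ev (c ++ [lt]))⁻¹)⁻¹ * (M.ev (c ++ [inv1 lt]))⁻¹ =
          M.ev (c ++ lt :: lt :: invw c) := by
        simp only [M.ev_append, M.ev_cons, M.ev_nil, M.ev_invw, M.s_inv]
        group
      rw [Mark.d, h1, hI.geod _ (clean_mid hcc hci hc3 hic3 hlt)]
      simp [invw_length]; ring
    have e3 : ∀ x : Ltr, M.d 1 (M.ev (c ++ [x]))⁻¹ ≤ c.length + 1 := by
      intro x
      rw [M.d_one_left, M.len_inv]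
      refine (M.len_le _).trans (by simp)
    have e4 : ∀ x : Ltr, M.d (M.ev (c ++ [x]))⁻¹ (M.ev w) = M.len (M.ev (c ++ x :: w)) := by
      intro x
      simp only [Mark.d, inv_inv, M.ev_append, M.ev_cons, M.ev_nil, mul_assoc, one_mul]
    have e5 : ∀ x : Ltr, M.d (M.ev w) (M.ev (c ++ [x]))⁻¹ = M.len (M.ev (c ++ x :: w)) := by
      intro x
      rw [M.isGeo.symm, e4]
    rw [e1, e2, e4, e5] at h4
    have h5 := e3 lt
    have h6 := e3 (inv1 lt)
    rcases le_total (M.d 1 (M.ev (c ++ [lt]))⁻¹ + M.len (M.ev (c ++ inv1 lt :: w)))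
      (M.d 1 (M.ev (c ++ [inv1 lt]))⁻¹ + M.len (M.ev (c ++ lt :: w))) with h | h
    · rw [max_eq_right h] at h4
      exact ⟨lt, Or.inl rfl, by omega⟩
    · rw [max_eq_left h] at h4
      exact ⟨inv1 lt, Or.inr rfl, by omega⟩

end Pool.Agent.Helper41.ML
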